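import Pool.Agent.Lib.MP_d38209_co.Induct

/-! MP_d38209_co (helper9): counting colourings; the system of relations for complex `q`. -/

namespace Pool.Agent.Lib.MP_d38209_co

open Finset Polynomial

variable {V : Type*} [Fintype V] [DecidableEq V] (G : SimpleGraph V) [DecidableRel G.Adj]

/-- proper on `A` -/
def Prop' {k : ℕ} (A : Finset V) (σ : V → Fin k) : Prop :=
  ∀ x ∈ A, ∀ y ∈ A, G.Adj x y → σ x ≠ σ y

instance {k : ℕ} (A : Finset V) (σ : V → Fin k) : Decidable (Prop' G A σ) := by
  unfold Prop'; infer_instance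

/-- colourings that are proper on `A` -/
def col (A : Finset V) (k : ℕ) : Finset (V → Fin k) := univ.filter (fun σ => Prop' G A σ)

/-- with one more colour that avoids `S` -/
def cnt (A S : Finset V) (k : ℕ) : Finset ((V → Fin k) × Fin k) :=
  univ.filter (fun p => Prop' G A p.1 ∧ ∀ s ∈ S, p.1 s ≠ p.2)

/-- the colour of `x` avoids `S` -/
def mcnt (A S : Finset V) (x : V) (k : ℕ) : Finset (V → Fin k) :=
  univ.filter (fun σ => Prop' G A σ ∧ ∀ s ∈ S, σ s ≠ σ x)

theorem prop'_update {k : ℕ} {A : Finset V} {x : V} (hx : x ∉ A) (σ : V → Fin k) (c : Fin k) :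
    Prop' G A (Function.update σ x c) ↔ Prop' G A σ := by
  unfold Prop'
  refine forall₂_congr fun a ha => forall₂_congr fun b hb => ?_
  have h1 : a ≠ x := fun h => hx (h ▸ ha)
  have h2 : b ≠ x := fun h => hx (h ▸ hb)
  rw [Function.update_of_ne h1, Function.update_of_ne h2]

theorem card_cnt {A S : Finset V} {x : V} (hA : x ∉ A) (hS : x ∉ S) (k : ℕ) :
    (cnt G A S k).card = (mcnt G A S x k).card * k := by
  have : (mcnt G A S x k ×ˢ (univ : Finset (Fin k))).card = (mcnt G A S x k).card * k := by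
    rw [card_product, card_univ, Fintype.card_fin]
  rw [← this]
  refine Finset.card_nbij' (fun p => (Function.update p.1 x p.2, p.1 x))
    (fun p => (Function.update p.1 x p.2, p.1 x)) ?_ ?_ ?_ ?_
  · rintro ⟨σ, c⟩ h
    simp only [cnt, mcnt, coe_filter, Set.mem_ofPred_eq, mem_coe, mem_filter, mem_univ, true_and,
      mem_product, and_true] at h ⊢
    refine ⟨(prop'_update G hA σ c).mpr h.1, fun s hs => ?_⟩
    have : s ≠ x := fun e => hS (e ▸ hs)
    rw [Function.update_of_ne this, Function.update_self]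
    exact h.2 s hs
  · rintro ⟨σ, c⟩ h
    simp only [cnt, mcnt, coe_filter, Set.mem_ofPred_eq, mem_coe, mem_filter, mem_univ, true_and,
      mem_product, and_true] at h ⊢
    refine ⟨(prop'_update G hA σ c).mpr h.1, fun s hs => ?_⟩
    have : s ≠ x := fun e => hS (e ▸ hs)
    rw [Function.update_of_ne this]
    exact h.2 s hs
  · rintro ⟨σ, c⟩ _
    simp
  · rintro ⟨σ, c⟩ _
    simp

theorem prop'_erase {k : ℕ} {A : Finset V} {x : V} (hx : x ∈ A) (σ : V → Fin k) :
    Prop' G A σ ↔ Prop' G (A.erase x) σ ∧ ∀ s ∈ nb G A x, σ s ≠ σ x := by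
  unfold Prop'
  constructor
  · intro h
    refine ⟨fun a ha b hb => h a (mem_of_mem_erase ha) b (mem_of_mem_erase hb), fun s hs => ?_⟩
    rw [mem_nb] at hs
    exact h s hs.1 x hx hs.2.symm
  · rintro ⟨h1, h2⟩ a ha b hb hab
    by_cases hax : a = x
    · subst hax
      exact (h2 b (mem_nb.mpr ⟨hb, hab⟩)).symm
    · by_cases hbx : b = x
      · subst hbx
        exact h2 a (mem_nb.mpr ⟨ha, hab.symm⟩)
      · exact h1 a (mem_erase.mpr ⟨hax, ha⟩) b (mem_erase.mpr ⟨hbx, hb⟩) hab

theorem card_step {A S : Finset V} {x : V} (hA : x ∈ A) (_hS : x ∉ S) (k : ℕ) :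
    (cnt G A S k).card = (cnt G A (insert x S) k).card +
      (mcnt G (A.erase x) (S ∪ nb G A x) x k).card := by
  have h1 : (cnt G A S k).card = ((cnt G A S k).filter (fun p => p.1 x ≠ p.2)).card +
      ((cnt G A S k).filter (fun p => ¬ p.1 x ≠ p.2)).card :=
    (card_filter_add_card_filter_not (s := cnt G A S k) (fun p => p.1 x ≠ p.2)).symm
  rw [h1]
  congr 1
  · congr 1
    ext p
    simp only [cnt, mem_filter, mem_univ, true_and, mem_insert, forall_eq_or_imp]
    tauto
  · refine Finset.card_nbij' (fun p => p.1) (fun σ => (σ, σ x)) ?_ ?_ ?_ ?_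
    · rintro ⟨σ, c⟩ h
      simp only [cnt, mcnt, coe_filter, Set.mem_ofPred_eq, mem_filter, mem_univ, true_and,
        not_not, mem_union] at h ⊢
      obtain ⟨⟨h1, h2⟩, h3⟩ := h
      rw [prop'_erase G hA] at h1
      refine ⟨h1.1, ?_⟩
      rintro s (hs | hs)
      · rw [h3]; exact h2 s hs
      · exact h1.2 s hs
    · rintro σ h
      simp only [cnt, mcnt, coe_filter, Set.mem_ofPred_eq, mem_filter, mem_univ, true_and,
        not_not, mem_union, and_true] at h ⊢
      rw [prop'_erase G hA]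
      exact ⟨⟨h.1, fun s hs => h.2 s (Or.inr hs)⟩, fun s hs => h.2 s (Or.inl hs)⟩
    · rintro ⟨σ, c⟩ h
      simp only [cnt, coe_filter, Set.mem_ofPred_eq, mem_filter, mem_univ, true_and,
        not_not] at h
      simp [h.2]
    · rintro σ _
      rfl

theorem card_add {A : Finset V} {x : V} (hA : x ∉ A) (k : ℕ) :
    (col G (insert x A) k).card = (mcnt G A (nb G A x) x k).card := by
  congr 1
  ext σ
  simp only [col, mcnt, mem_filter, mem_univ, true_and]
  rw [prop'_erase G (mem_insert_self x A), erase_insert hA]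
  have : nb G (insert x A) x = nb G A x := by
    rw [← nb_erase_self (insert x A) x, erase_insert hA]
  rw [this]

/-- normalised counts -/
noncomputable def uh (A : Finset V) (k : ℕ) : ℂ :=
  ((col G A k).card : ℂ) / (k : ℂ) ^ (Fintype.card V - A.card)

/-- normalised counts -/
noncomputable def wh (A S : Finset V) (k : ℕ) : ℂ :=
  ((cnt G A S k).card : ℂ) / (k : ℂ) ^ (Fintype.card V - A.card)

theorem uh_empty {k : ℕ} (hk : 0 < k) : uh G ∅ k = 1 := by
  have : col G ∅ k = univ := by
    ext σ; simp [col, Prop']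
  have hk' : (k : ℂ) ≠ 0 := by exact_mod_cast hk.ne'
  rw [uh, this]
  simp only [card_univ, Fintype.card_fun, Fintype.card_fin, card_empty, Nat.sub_zero, Nat.cast_pow]
  exact div_self (pow_ne_zero _ hk')

theorem wh_base (A : Finset V) (k : ℕ) : wh G A ∅ k = k * uh G A k := by
  have : cnt G A ∅ k = col G A k ×ˢ univ := by
    ext p; simp [cnt, col]
  rw [wh, uh, this, card_product, card_univ, Fintype.card_fin]
  push_cast
  ring

theorem wh_step {A S : Finset V} {x : V} (hx : x ∈ A) (hS : x ∉ S) {k : ℕ} (hk : 0 < k) :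
    wh G A (insert x S) k = wh G A S k - wh G (A.erase x) (S ∪ nb G A x) k := by
  have hk' : (k : ℂ) ≠ 0 := by exact_mod_cast hk.ne'
  have h1 := card_step G hx hS k
  have hx1 : x ∉ A.erase x := notMem_erase x A
  have hx2 : x ∉ S ∪ nb G A x := by
    rw [mem_union, not_or]
    exact ⟨hS, fun h => hx1 (nb_sub A x h)⟩
  have h2 := card_cnt G hx1 hx2 k
  have hc : Fintype.card V - (A.erase x).card = (Fintype.card V - A.card) + 1 := by
    rw [card_erase_of_mem hx]
    have h3 : A.card ≤ Fintype.card V := card_le_univ A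
    have h4 : 0 < A.card := card_pos.mpr ⟨x, hx⟩
    omega
  simp only [wh]
  rw [hc, h1, h2]
  push_cast
  field_simp
  ring

theorem uh_add {A : Finset V} {x : V} (hx : x ∉ A) {k : ℕ} (hk : 0 < k) :
    uh G (insert x A) k = wh G A (nb G A x) k := by
  have hk' : (k : ℂ) ≠ 0 := by exact_mod_cast hk.ne'
  have h2 := card_cnt G hx (fun h => hx (mem_nb.mp h).1 : x ∉ nb G A x) k
  have hc : Fintype.card V - A.card = (Fintype.card V - (insert x A).card) + 1 := by
    have h3 : (insert x A).card ≤ Fintype.card V := card_le_univ _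
    rw [card_insert_of_notMem hx] at h3 ⊢
    omega
  simp only [wh, uh]
  rw [hc, card_add G hx, h2]
  push_cast
  rw [pow_succ, mul_comm ((k : ℂ) ^ _) (k : ℂ)]
  field_simp

/-- interpolated by a polynomial on the positive integers -/
def IsPoly (f : ℕ → ℂ) : Prop := ∃ P : ℂ[X], ∀ k : ℕ, 0 < k → P.eval (k : ℂ) = f k

theorem isPoly_congr {f g : ℕ → ℂ} (h : ∀ k, 0 < k → f k = g k) (hg : IsPoly g) : IsPoly f := by
  obtain ⟨P, hP⟩ := hg
  exact ⟨P, fun k hk => by rw [hP k hk, h k hk]⟩

theorem isPoly_all (m : ℕ) : ∀ A : Finset V, A.card = m →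
    IsPoly (uh G A) ∧ ∀ S ⊆ A, IsPoly (wh G A S) := by
  induction m using Nat.strong_induction_on with
  | _ m ih =>
  intro A hA
  have hU : IsPoly (uh G A) := by
    rcases A.eq_empty_or_nonempty with h | ⟨a, ha⟩
    · subst h
      exact ⟨1, fun k hk => by rw [uh_empty G hk]; simp⟩
    · have hc : (A.erase a).card < m := by rw [← hA]; exact card_erase_lt_of_mem ha
      refine isPoly_congr (fun k hk => ?_) ((ih _ hc (A.erase a) rfl).2 (nb G (A.erase a) a)
        (filter_subset _ _))
      rw [← uh_add G (notMem_erase a A) hk, insert_erase ha]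
  refine ⟨hU, fun S => ?_⟩
  induction S using Finset.induction_on with
  | empty =>
    intro _
    obtain ⟨P, hP⟩ := hU
    exact ⟨X * P, fun k hk => by rw [wh_base, eval_mul, eval_X, hP k hk]⟩
  | insert x S hxS ihS =>
    intro hS
    rw [insert_subset_iff] at hS
    obtain ⟨P, hP⟩ := ihS hS.2
    have hc : (A.erase x).card < m := by rw [← hA]; exact card_erase_lt_of_mem hS.1
    have hsub : S ∪ nb G A x ⊆ A.erase x := by
      intro z hz
      rcases mem_union.mp hz with h | h
      · exact mem_erase.mpr ⟨fun e => hxS (e ▸ h), hS.2 h⟩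
      · exact nb_sub A x h
    obtain ⟨P', hP'⟩ := (ih _ hc (A.erase x) rfl).2 _ hsub
    exact ⟨P - P', fun k hk => by rw [wh_step G hS.1 hxS hk, eval_sub, hP k hk, hP' k hk]⟩

theorem poly_unique {P Q : ℂ[X]} (h : ∀ k : ℕ, 0 < k → P.eval (k : ℂ) = Q.eval (k : ℂ)) :
    P = Q := by
  refine Polynomial.eq_of_infinite_eval_eq P Q ?_
  refine Set.Infinite.mono (s := (fun k : ℕ => ((k + 1 : ℕ) : ℂ)) '' Set.univ) ?_ ?_
  · rintro _ ⟨k, _, rfl⟩
    exact h (k + 1) (Nat.succ_pos k)
  · refine Set.Infinite.image ?_ Set.infinite_univ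
    intro a _ b _ hab
    have h2 : ((a + 1 : ℕ) : ℂ) = ((b + 1 : ℕ) : ℂ) := hab
    have : (a + 1 : ℕ) = b + 1 := by exact_mod_cast h2
    omega

open Classical in
/-- interpolating value at `q` -/
noncomputable def ev (f : ℕ → ℂ) (q : ℂ) : ℂ := if h : IsPoly f then h.choose.eval q else 0

theorem ev_eq {f : ℕ → ℂ} {P : ℂ[X]} (h : ∀ k : ℕ, 0 < k → P.eval (k : ℂ) = f k) (q : ℂ) :
    ev f q = P.eval q := by
  have hf : IsPoly f := ⟨P, h⟩
  rw [ev, dif_pos hf]
  have : hf.choose = P := poly_unique fun k hk => by rw [hf.choose_spec k hk, h k hk]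
  rw [this]

/-- The system for the complex number `q`. -/
theorem sys (q : ℂ) : ∃ (zU : Finset V → ℂ) (zW : Finset V → Finset V → ℂ),
    Sys G q zU zW ∧ ∀ P : ℂ[X], (∀ k : ℕ, 0 < k → P.eval (k : ℂ) = uh G univ k) →
      P.eval q = zU univ := by
  classical
  -- sets outside of `A` are cut off
  refine ⟨fun A => ev (uh G A) q, fun A S => ev (wh G A S) q, ⟨?_, ?_, ?_, ?_⟩, ?_⟩
  · exact (ev_eq (P := 1) (fun k hk => by rw [uh_empty G hk]; simp) q).trans (by simp)
  · intro A
    obtain ⟨P, hP⟩ := (isPoly_all G _ A rfl).1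
    show ev (wh G A ∅) q = q * ev (uh G A) q
    rw [ev_eq hP, ev_eq (P := X * P) (fun k hk => by rw [wh_base, eval_mul, eval_X, hP k hk])]
    simp
  · intro A S x hS hx hxS
    obtain ⟨P, hP⟩ := (isPoly_all G _ A rfl).2 S hS
    have hsub : S ∪ nb G A x ⊆ A.erase x := by
      intro z hz
      rcases mem_union.mp hz with h | h
      · exact mem_erase.mpr ⟨fun e => hxS (e ▸ h), hS h⟩
      · exact nb_sub A x h
    obtain ⟨P', hP'⟩ := (isPoly_all G _ (A.erase x) rfl).2 _ hsub
    show ev (wh G A (insert x S)) q = ev (wh G A S) q - ev (wh G (A.erase x) (S ∪ nb G A x)) q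
    rw [ev_eq hP, ev_eq hP', ev_eq (P := P - P') (fun k hk => by
      rw [wh_step G hx hxS hk, eval_sub, hP k hk, hP' k hk])]
    simp
  · intro A x hx
    obtain ⟨P, hP⟩ := (isPoly_all G _ A rfl).2 (nb G A x) (filter_subset _ _)
    show ev (uh G (insert x A)) q = ev (wh G A (nb G A x)) q
    rw [ev_eq hP, ev_eq (P := P) (fun k hk => by rw [uh_add G hx hk, hP k hk])]
  · intro P hP
    exact (ev_eq hP q).symm

end Pool.Agent.Lib.MP_d38209_co
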