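import Mathlib

/-! MP_d38209_co (helper9): the induction with discs. -/

namespace Pool.Agent.Lib.MP_d38209_co

open Finset

/-- The neighbours of `x` in `A`. -/
def nb {V : Type*} (G : SimpleGraph V) [DecidableRel G.Adj] (A : Finset V) (x : V) : Finset V :=
  A.filter (fun y => G.Adj x y)

/-- Partial sums. -/
noncomputable def psum (r : ℕ → ℝ) (j : ℕ) : ℝ := ∑ i ∈ range j, r i

theorem psum_zero (r : ℕ → ℝ) : psum r 0 = 0 := by simp [psum]

theorem psum_succ (r : ℕ → ℝ) (j : ℕ) : psum r (j + 1) = psum r j + r j := by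
  simp [psum, Finset.sum_range_succ]

/-- The relations between the partition functions of the induced subgraphs. -/
structure Sys {V : Type*} [DecidableEq V] (G : SimpleGraph V) [DecidableRel G.Adj] (q : ℂ)
    (zU : Finset V → ℂ) (zW : Finset V → Finset V → ℂ) : Prop where
  empty : zU ∅ = 1
  base : ∀ A, zW A ∅ = q * zU A
  step : ∀ A S x, S ⊆ A → x ∈ A → x ∉ S →
    zW A (insert x S) = zW A S - zW (A.erase x) (S ∪ nb G A x)
  add : ∀ A x, x ∉ A → zU (insert x A) = zW A (nb G A x)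

variable {V : Type*} [DecidableEq V] {G : SimpleGraph V} [DecidableRel G.Adj]

theorem mem_nb {A : Finset V} {x y : V} : y ∈ nb G A x ↔ y ∈ A ∧ G.Adj x y := by simp [nb]

theorem nb_sub (A : Finset V) (x : V) : nb G A x ⊆ A.erase x := by
  intro y hy
  rw [mem_nb] at hy
  exact mem_erase.mpr ⟨fun h => G.irrefl (h ▸ hy.2), hy.1⟩

theorem nb_erase_self (A : Finset V) (x : V) : nb G (A.erase x) x = nb G A x := by
  ext y
  rw [mem_nb, mem_nb, mem_erase]
  constructor
  · rintro ⟨⟨_, h⟩, h'⟩; exact ⟨h, h'⟩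
  · rintro ⟨h, h'⟩; exact ⟨⟨fun e => G.irrefl (e ▸ h'), h⟩, h'⟩

theorem nb_mono {A B : Finset V} (h : A ⊆ B) (x : V) : nb G A x ⊆ nb G B x := by
  intro y hy
  rw [mem_nb] at hy ⊢
  exact ⟨h hy.1, hy.2⟩

/-- distance of two powers -/
theorem pow_dist {q : ℂ} {r : ℕ → ℝ} (hq : q ≠ 0)
    (h1 : ∀ j, ‖1 - 1 / q‖ ^ j / ‖q‖ ≤ r j) {m m' : ℕ} (h : m ≤ m') :
    ‖(1 - 1 / q) ^ m - (1 - 1 / q) ^ m'‖ ≤ psum r m' - psum r m := by
  induction m', h using Nat.le_induction with
  | base => simp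
  | succ k hk ih =>
    have e : (1 - 1 / q) ^ m - (1 - 1 / q) ^ (k + 1) =
        ((1 - 1 / q) ^ m - (1 - 1 / q) ^ k) + (1 - 1 / q) ^ k / q := by
      rw [pow_succ]
      ring
    rw [e, psum_succ]
    have h2 : ‖(1 - 1 / q) ^ k / q‖ ≤ r k := by
      rw [norm_div, norm_pow]; exact h1 k
    calc _ ≤ _ := norm_add_le _ _
      _ ≤ (psum r k - psum r m) + r k := add_le_add ih h2
      _ = _ := by ring

/-- the disc estimate -/
theorem disc_quot {q : ℂ} {r : ℕ → ℝ} (hq : q ≠ 0)
    (h1 : ∀ j, ‖1 - 1 / q‖ ^ j / ‖q‖ ≤ r j) {j m d : ℕ} (hmd : m ≤ j + d)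
    (h2 : 0 < ‖q‖ * ‖1 - 1 / q‖ ^ d - psum (psum r) d)
    (h3 : psum r (j + d) + ‖1 - 1 / q‖ ^ j / ‖q‖ * psum (psum r) d ≤
      r j * (‖q‖ * ‖1 - 1 / q‖ ^ d - psum (psum r) d))
    {g N : ℂ} (hg : ‖g - (1 - 1 / q) ^ m‖ ≤ psum r m)
    (hN : ‖N - q * (1 - 1 / q) ^ d‖ ≤ psum (psum r) d) :
    ‖g / N - (1 - 1 / q) ^ j / q‖ ≤ r j := by
  have hr : 0 ≤ r j := le_trans (by positivity) (h1 j)
  have hNn : ‖q‖ * ‖1 - 1 / q‖ ^ d - psum (psum r) d ≤ ‖N‖ := by
    have : ‖q * (1 - 1 / q) ^ d‖ ≤ ‖N‖ + ‖N - q * (1 - 1 / q) ^ d‖ := by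
      have := norm_sub_le N (N - q * (1 - 1 / q) ^ d)
      simpa using this
    rw [norm_mul, norm_pow] at this
    linarith
  have hNpos : 0 < ‖N‖ := h2.trans_le hNn
  have hN0 : N ≠ 0 := norm_pos_iff.mp hNpos
  have e : g / N - (1 - 1 / q) ^ j / q = (g - (1 - 1 / q) ^ j / q * N) / N := by
    field_simp
  rw [e, norm_div, div_le_iff₀ hNpos]
  have e2 : g - (1 - 1 / q) ^ j / q * N = (g - (1 - 1 / q) ^ m) +
      ((1 - 1 / q) ^ m - (1 - 1 / q) ^ (j + d)) -
      (1 - 1 / q) ^ j / q * (N - q * (1 - 1 / q) ^ d) := by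
    rw [pow_add]
    field_simp
    ring
  have h4 := pow_dist hq h1 hmd
  have h5 : ‖(1 - 1 / q) ^ j / q * (N - q * (1 - 1 / q) ^ d)‖ ≤
      ‖1 - 1 / q‖ ^ j / ‖q‖ * psum (psum r) d := by
    rw [norm_mul, norm_div, norm_pow]
    exact mul_le_mul_of_nonneg_left hN (by positivity)
  calc ‖g - (1 - 1 / q) ^ j / q * N‖ ≤ ‖g - (1 - 1 / q) ^ m‖ +
        ‖(1 - 1 / q) ^ m - (1 - 1 / q) ^ (j + d)‖ +
        ‖(1 - 1 / q) ^ j / q * (N - q * (1 - 1 / q) ^ d)‖ := by
        rw [e2]
        exact (norm_sub_le _ _).trans (add_le_add (norm_add_le _ _) le_rfl)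
    _ ≤ psum r m + (psum r (j + d) - psum r m) +
        ‖1 - 1 / q‖ ^ j / ‖q‖ * psum (psum r) d := add_le_add (add_le_add hg h4) h5
    _ = psum r (j + d) + ‖1 - 1 / q‖ ^ j / ‖q‖ * psum (psum r) d := by ring
    _ ≤ r j * (‖q‖ * ‖1 - 1 / q‖ ^ d - psum (psum r) d) := h3
    _ ≤ r j * ‖N‖ := mul_le_mul_of_nonneg_left hNn hr

variable {q : ℂ} {zU : Finset V → ℂ} {zW : Finset V → Finset V → ℂ}

theorem ne_of_disc {N : ℂ} {d : ℕ} {r : ℕ → ℝ}
    (h2 : 0 < ‖q‖ * ‖1 - 1 / q‖ ^ d - psum (psum r) d)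
    (hN : ‖N - q * (1 - 1 / q) ^ d‖ ≤ psum (psum r) d) : N ≠ 0 := by
  rintro rfl
  rw [zero_sub, norm_neg, norm_mul, norm_pow] at hN
  linarith

/-- all vertices of `S` outside of `C` have at most `n` neighbours in `A` -/
def Good' (G : SimpleGraph V) [DecidableRel G.Adj] (C : Finset V) (n : ℕ) (A S : Finset V) : Prop :=
  ∀ s ∈ S, s ∉ C → (nb G A s).card ≤ n

/-- cliques -/
theorem clique_val (hsys : Sys G q zU zW) {C : Finset V}
    (hC : ∀ u ∈ C, ∀ v ∈ C, u ≠ v → G.Adj u v) (A : Finset V) (hA : A ⊆ C) :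
    zU A = ∏ i ∈ range A.card, (q - i) ∧ ∀ S ⊆ A, zW A S = (q - S.card) * zU A := by
  have hnb : ∀ B ⊆ C, ∀ x ∈ C, nb G B x = B.erase x := by
    intro B hB x hx
    ext y
    rw [mem_nb, mem_erase]
    constructor
    · rintro ⟨h1, h2⟩; exact ⟨fun e => G.irrefl (e ▸ h2), h1⟩
    · rintro ⟨h1, h2⟩; exact ⟨h2, hC x hx y (hB h2) h1.symm⟩
  induction hc : A.card using Nat.strong_induction_on generalizing A with
  | _ m ih =>
  subst hc
  have hlt : ∀ a ∈ A, (A.erase a).card < A.card := fun a ha => card_erase_lt_of_mem ha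
  have hadd : ∀ a ∈ A, zU A = zW (A.erase a) (A.erase a) := by
    intro a ha
    have := hsys.add (A.erase a) a (by simp)
    rw [insert_erase ha, hnb _ ((erase_subset _ _).trans hA) a (hA ha), erase_idem] at this
    exact this
  refine ⟨?_, ?_⟩
  · rcases A.eq_empty_or_nonempty with h | ⟨a, ha⟩
    · rw [h, hsys.empty]; simp
    · obtain ⟨i1, i2⟩ := ih _ (hlt a ha) (A.erase a) ((erase_subset _ _).trans hA) rfl
      have hc : A.card = (A.erase a).card + 1 := (card_erase_add_one ha).symm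
      rw [hadd a ha, i2 _ Subset.rfl, i1, hc, Finset.prod_range_succ, mul_comm]
  · intro S
    induction S using Finset.induction_on with
    | empty => intro _; rw [hsys.base]; simp
    | insert x S hxS ihS =>
      intro hS
      rw [insert_subset_iff] at hS
      have e : S ∪ nb G A x = A.erase x := by
        rw [hnb A hA x (hA hS.1)]
        refine union_eq_right.mpr fun y hy => mem_erase.mpr ⟨fun h => hxS (h ▸ hy), hS.2 hy⟩
      rw [hsys.step A S x hS.2 hS.1 hxS, e, ← hadd x hS.1, ihS hS.2, card_insert_of_notMem hxS]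
      push_cast
      ring

/-- **The induction.** The vertices of unbounded degree form a clique `C`. -/
theorem main (hsys : Sys G q zU zW) (hq : q ≠ 0) (n : ℕ) (C : Finset V)
    (hC : ∀ u ∈ C, ∀ v ∈ C, u ≠ v → G.Adj u v) (hCq : ∀ i < C.card, q ≠ i)
    (hdeg : ∀ (A : Finset V) v, v ∉ C → (nb G A v).card ≤ n + 1) (r : ℕ → ℝ)
    (h1 : ∀ j, ‖1 - 1 / q‖ ^ j / ‖q‖ ≤ r j)
    (h2 : ∀ d ≤ n + 1, 0 < ‖q‖ * ‖1 - 1 / q‖ ^ d - psum (psum r) d)
    (h3 : ∀ j, ∀ d ≤ n, psum r (j + d) + ‖1 - 1 / q‖ ^ j / ‖q‖ * psum (psum r) d ≤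
      r j * (‖q‖ * ‖1 - 1 / q‖ ^ d - psum (psum r) d)) (A : Finset V) (hCA : C ⊆ A) :
    zU A ≠ 0 ∧
    (∀ S ⊆ A, Good' G C n A S →
      ‖zW A S / zU A - q * (1 - 1 / q) ^ S.card‖ ≤ psum (psum r) S.card) ∧
    (∀ S ⊆ A, ∀ x ∈ A, x ∉ S → Good' G C n A (insert x S) →
      ‖zW (A.erase x) (S ∪ nb G A x) / zU A - (1 - 1 / q) ^ S.card‖ ≤ psum r S.card) := by
  induction hA : A.card using Nat.strong_induction_on generalizing A with
  | _ m ih =>
  subst hA
  -- the set of neighbours is good after the removal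
  have hgoodnb : ∀ a ∈ A, Good' G C n (A.erase a) (nb G A a) := by
    intro a ha u hu huC
    rw [mem_nb] at hu
    have hsub : nb G (A.erase a) u ⊆ (nb G A u).erase a := by
      intro y hy
      rw [mem_nb, mem_erase] at hy
      rw [mem_erase, mem_nb]
      exact ⟨hy.1.1, hy.1.2, hy.2⟩
    have hmem : a ∈ nb G A u := mem_nb.mpr ⟨ha, hu.2.symm⟩
    have := card_le_card hsub
    rw [card_erase_of_mem hmem] at this
    have := hdeg A u huC
    omega
  have hlt : ∀ a ∈ A, (A.erase a).card < A.card := fun a ha => card_erase_lt_of_mem ha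
  have hCe : ∀ a, a ∉ C → C ⊆ A.erase a := fun a haC y hy =>
    mem_erase.mpr ⟨fun h => haC (h ▸ hy), hCA hy⟩
  have hadd : ∀ a ∈ A, zU A = zW (A.erase a) (nb G A a) := by
    intro a ha
    have := hsys.add (A.erase a) a (by simp)
    rw [insert_erase ha, nb_erase_self] at this
    exact this
  have hU : zU A ≠ 0 := by
    by_cases hAC : A ⊆ C
    · rw [(clique_val hsys hC A hAC).1, Finset.prod_ne_zero_iff]
      intro i hi
      rw [mem_range] at hi
      exact sub_ne_zero.mpr (hCq i (hi.trans_le (card_le_card hAC)))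
    · obtain ⟨a, ha, haC⟩ := not_subset.mp hAC
      obtain ⟨i1, i2, _⟩ := ih _ (hlt a ha) (A.erase a) (hCe a haC) rfl
      have h4 := i2 (nb G A a) (nb_sub A a) (hgoodnb a ha)
      have h5 := ne_of_disc (h2 _ (hdeg A a haC)) h4
      rw [hadd a ha]
      intro h6
      rw [h6, zero_div] at h5
      exact h5 rfl
  -- the two point function, removing a vertex outside of `C`
  have hP0 : ∀ S ⊆ A, ∀ x ∈ A, x ∉ C → ∀ y ∈ A, x ≠ y → x ∉ S → y ∉ S → y ∉ nb G A x →
      Good' G C n A (insert x (insert y S)) →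
      ‖zW ((A.erase x).erase y) (S ∪ nb G A x ∪ nb G (A.erase x) y) / zU A -
        (1 - 1 / q) ^ S.card / q‖ ≤ r S.card := by
    intro S hS x hx hxC y hy hxy hxS hyS hyN hgood
    obtain ⟨i1, i2, i3⟩ := ih _ (hlt x hx) (A.erase x) (hCe x hxC) rfl
    have hsubT : S ∪ nb G A x ⊆ A.erase x := by
      intro z hz
      rcases mem_union.mp hz with h | h
      · exact mem_erase.mpr ⟨fun e => hxS (e ▸ h), hS h⟩
      · exact nb_sub A x h
    have hyT : y ∉ S ∪ nb G A x := by
      simp only [mem_union, not_or]; exact ⟨hyS, hyN⟩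
    have hyA : y ∈ A.erase x := mem_erase.mpr ⟨hxy.symm, hy⟩
    have hgoodT : Good' G C n (A.erase x) (insert y (S ∪ nb G A x)) := by
      intro u hu huC
      rw [mem_insert, mem_union] at hu
      have hle : (nb G (A.erase x) u).card ≤ (nb G A u).card :=
        card_le_card (nb_mono (erase_subset _ _) u)
      rcases hu with h | h | h
      · exact hle.trans (hgood u (by simp [h]) huC)
      · exact hle.trans (hgood u (by simp [h]) huC)
      · exact hgoodnb x hx u h huC
    have h4 := i3 (S ∪ nb G A x) hsubT y hyA hyT hgoodT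
    have hd : (nb G A x).card ≤ n := hgood x (by simp) hxC
    have h5 := i2 (nb G A x) (nb_sub A x) (hgoodnb x hx)
    rw [hadd x hx]
    have e2 : zW ((A.erase x).erase y) (S ∪ nb G A x ∪ nb G (A.erase x) y) /
        zW (A.erase x) (nb G A x) =
        (zW ((A.erase x).erase y) (S ∪ nb G A x ∪ nb G (A.erase x) y) / zU (A.erase x)) /
        (zW (A.erase x) (nb G A x) / zU (A.erase x)) := by
      rw [div_div_div_cancel_right₀ i1]
    rw [e2]
    refine disc_quot hq h1 ?_ (h2 _ (by omega)) (h3 _ _ hd)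
      h4 h5
    exact card_union_le _ _
  -- the two point function
  have hP : ∀ S ⊆ A, ∀ x ∈ A, ∀ y ∈ A, x ≠ y → x ∉ S → y ∉ S →
      Good' G C n A (insert x (insert y S)) →
      ‖(zW (A.erase x) (S ∪ nb G A x) - zW (A.erase x) (insert y S ∪ nb G A x)) / zU A -
        (1 - 1 / q) ^ S.card / q‖ ≤ r S.card := by
    intro S hS x hx y hy hxy hxS hyS hgood
    by_cases hyN : y ∈ nb G A x
    · have e : insert y S ∪ nb G A x = S ∪ nb G A x := by
        ext z
        simp only [mem_union, mem_insert]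
        constructor
        · rintro ((h | h) | h)
          · right; rw [h]; exact hyN
          · left; exact h
          · right; exact h
        · rintro (h | h)
          · left; right; exact h
          · right; exact h
      rw [e, sub_self, zero_div, zero_sub, norm_neg, norm_div, norm_pow]
      exact h1 _
    · have hsubT : S ∪ nb G A x ⊆ A.erase x := by
        intro z hz
        rcases mem_union.mp hz with h | h
        · exact mem_erase.mpr ⟨fun e => hxS (e ▸ h), hS h⟩
        · exact nb_sub A x h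
      have hyT : y ∉ S ∪ nb G A x := by
        simp only [mem_union, not_or]; exact ⟨hyS, hyN⟩
      have hyA : y ∈ A.erase x := mem_erase.mpr ⟨hxy.symm, hy⟩
      have hstep := hsys.step (A.erase x) (S ∪ nb G A x) y hsubT hyA hyT
      have e : insert y S ∪ nb G A x = insert y (S ∪ nb G A x) := by
        rw [insert_union]
      rw [e, hstep, sub_sub_cancel]
      by_cases hxC : x ∈ C
      · -- then `y` is outside of `C`
        have hyC : y ∉ C := by
          intro hyC
          exact hyN (mem_nb.mpr ⟨hy, hC x hxC y hyC hxy⟩)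
        have hxN : x ∉ nb G A y := fun h => hyN (mem_nb.mpr ⟨hy, (mem_nb.mp h).2.symm⟩)
        have ex : nb G (A.erase y) x = nb G A x := by
          ext z
          rw [mem_nb, mem_nb, mem_erase]
          constructor
          · rintro ⟨⟨_, h⟩, h'⟩; exact ⟨h, h'⟩
          · rintro ⟨h, h'⟩
            exact ⟨⟨fun e => hyN (mem_nb.mpr ⟨hy, e ▸ h'⟩), h⟩, h'⟩
        have ey : nb G (A.erase x) y = nb G A y := by
          ext z
          rw [mem_nb, mem_nb, mem_erase]
          constructor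
          · rintro ⟨⟨_, h⟩, h'⟩; exact ⟨h, h'⟩
          · rintro ⟨h, h'⟩
            exact ⟨⟨fun e => hxN (mem_nb.mpr ⟨hx, e ▸ h'⟩), h⟩, h'⟩
        have h6 := hP0 S hS y hy hyC x hx hxy.symm hyS hxS hxN (by rw [Finset.insert_comm]; exact hgood)
        rw [ex, erase_right_comm, union_right_comm] at h6
        rw [ey]
        exact h6
      · exact hP0 S hS x hx hxC y hy hxy hxS hyS hyN hgood
  have hG : ∀ S ⊆ A, ∀ x ∈ A, x ∉ S → Good' G C n A (insert x S) →
      ‖zW (A.erase x) (S ∪ nb G A x) / zU A - (1 - 1 / q) ^ S.card‖ ≤ psum r S.card := by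
    intro S
    induction S using Finset.induction_on with
    | empty =>
      intro _ x hx _ _
      rw [empty_union, ← hadd x hx, div_self hU]
      simp [psum_zero]
    | insert y S hyS ihS =>
      intro hS x hx hxS hgood
      rw [insert_subset_iff] at hS
      have hxy : x ≠ y := fun h => hxS (by simp [h])
      have hxS' : x ∉ S := fun h => hxS (by simp [h])
      have a1 := ihS hS.2 x hx hxS' (fun u hu => hgood u (by
        rw [mem_insert] at hu ⊢
        rcases hu with h | h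
        · left; exact h
        · right; simp [h]))
      have a2 := hP S hS.2 x hx y hS.1 hxy hxS' hyS hgood
      rw [card_insert_of_notMem hyS, psum_succ]
      have e : zW (A.erase x) (insert y S ∪ nb G A x) / zU A - (1 - 1 / q) ^ (S.card + 1) =
          (zW (A.erase x) (S ∪ nb G A x) / zU A - (1 - 1 / q) ^ S.card) -
          ((zW (A.erase x) (S ∪ nb G A x) - zW (A.erase x) (insert y S ∪ nb G A x)) / zU A -
            (1 - 1 / q) ^ S.card / q) := by
        rw [pow_succ]
        ring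
      rw [e]
      exact (norm_sub_le _ _).trans (add_le_add a1 a2)
  refine ⟨hU, ?_, hG⟩
  intro S
  induction S using Finset.induction_on with
  | empty =>
    intro _ _
    rw [hsys.base, mul_div_assoc, div_self hU]
    simp [psum_zero]
  | insert x S hxS ihS =>
    intro hS hgood
    rw [insert_subset_iff] at hS
    have a1 := ihS hS.2 (fun u hu => hgood u (by simp [hu]))
    have a2 := hG S hS.2 x hS.1 hxS hgood
    rw [card_insert_of_notMem hxS, psum_succ, hsys.step A S x hS.2 hS.1 hxS]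
    have e : (zW A S - zW (A.erase x) (S ∪ nb G A x)) / zU A - q * (1 - 1 / q) ^ (S.card + 1) =
        (zW A S / zU A - q * (1 - 1 / q) ^ S.card) -
        (zW (A.erase x) (S ∪ nb G A x) / zU A - (1 - 1 / q) ^ S.card) := by
      have h7 : q * (1 - 1 / q) ^ (S.card + 1) =
          q * (1 - 1 / q) ^ S.card - (1 - 1 / q) ^ S.card := by
        rw [pow_succ]
        have : q * (1 / q) = 1 := mul_one_div_cancel hq
        linear_combination (-(1 - 1 / q) ^ S.card) * this
      rw [h7]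
      ring
    rw [e]
    exact (norm_sub_le _ _).trans (add_le_add a1 a2)

end Pool.Agent.Lib.MP_d38209_co
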