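import Pool.Agent.Lib.MP_d38209_co.Small

/-! MP_d38209_co (helper9): the certificates for `n ≥ 80`. -/

namespace Pool.Agent.Lib.MP_d38209_co

open Finset

theorem bonf (x : ℝ) (hx1 : x ≤ 1) (n : ℕ) :
    1 - n * x + n * (n - 1) / 2 * x ^ 2 - n * (n - 1) * (n - 2) / 6 * x ^ 3 ≤ (1 - x) ^ n := by
  induction n with
  | zero => simp
  | succ n ih =>
    have h0 : 0 ≤ (n : ℝ) * (n - 1) * (n - 2) := by
      rcases n with _ | _ | n
      · simp
      · simp
      · push_cast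
        have : (0 : ℝ) ≤ n := Nat.cast_nonneg n
        have e : ((n : ℝ) + 1 + 1) * (n + 1 + 1 - 1) * (n + 1 + 1 - 2) = (n + 2) * (n + 1) * n := by
          ring
        rw [e]; positivity
    rw [pow_succ]
    have h1 := mul_le_mul_of_nonneg_right ih (by linarith : (0 : ℝ) ≤ 1 - x)
    refine le_trans ?_ h1
    push_cast
    have h2 : 0 ≤ (n : ℝ) * (n - 1) * (n - 2) * x ^ 4 := by positivity
    nlinarith [h2]

theorem bonf_up (x : ℝ) (hx0 : 0 ≤ x) (hx1 : x ≤ 1) (n : ℕ) :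
    (1 - x) ^ n ≤ 1 - n * x + n * (n - 1) / 2 * x ^ 2 := by
  induction n with
  | zero => simp
  | succ n ih =>
    have h0 : 0 ≤ (n : ℝ) * (n - 1) := by
      rcases n with _ | n
      · simp
      · push_cast
        have : (0 : ℝ) ≤ n := Nat.cast_nonneg n
        have e : ((n : ℝ) + 1) * (n + 1 - 1) = (n + 1) * n := by ring
        rw [e]; positivity
    rw [pow_succ]
    have h1 := mul_le_mul_of_nonneg_right ih (by linarith : (0 : ℝ) ≤ 1 - x)
    refine le_trans h1 ?_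
    push_cast
    have h2 : 0 ≤ (n : ℝ) * (n - 1) * x ^ 3 := by positivity
    nlinarith [h2]

theorem exp_half : Real.exp (1 / 2) ≤ 1.6488 := by
  have h1 : Real.exp (1 / 2) * Real.exp (1 / 2) = Real.exp 1 := by
    rw [← Real.exp_add]; norm_num
  have h2 := Real.exp_one_lt_d9
  have h3 := Real.exp_pos (1 / 2)
  by_contra h
  push Not at h
  nlinarith

theorem pow_lam_le {n : ℕ} (hn : 0 < n) (k : ℕ) :
    (1 + 1 / (n : ℝ)) ^ k ≤ Real.exp (k / n) := by
  have h1 : 1 + 1 / (n : ℝ) ≤ Real.exp (1 / n) := by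
    have := Real.add_one_le_exp (1 / (n : ℝ)); linarith
  calc (1 + 1 / (n : ℝ)) ^ k ≤ (Real.exp (1 / n)) ^ k := pow_le_pow_left₀ (by positivity) h1 k
    _ = Real.exp (k / n) := by
        rw [← Real.exp_nat_mul]
        congr 1
        ring

theorem exp_conv {u : ℝ} (h0 : 0 ≤ u) (h1 : u ≤ 1 / 2) : Real.exp u ≤ 1 + 1.2976 * u := by
  have h := convexOn_exp.2 (Set.mem_univ (0 : ℝ)) (Set.mem_univ (1 / 2 : ℝ))
    (by linarith : (0 : ℝ) ≤ 1 - 2 * u) (by linarith : (0 : ℝ) ≤ 2 * u) (by ring)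
  simp only [smul_eq_mul, mul_zero, Real.exp_zero, mul_one, zero_add] at h
  have e : 2 * u * (1 / 2) = u := by ring
  rw [e] at h
  have := exp_half
  nlinarith

/-- the double sum -/
theorem zbound {n : ℕ} (hn : 0 < n) {K : ℕ} (hK : 2 * K ≤ n + 1) :
    ((((1 + 1 / (n : ℝ)) ^ K - 1) / (1 + 1 / (n : ℝ) - 1) - K) / (1 + 1 / (n : ℝ) - 1)) ≤
      1.2976 * (K * (K - 1) / 2) := by
  have hn' : (0 : ℝ) < n := by exact_mod_cast hn
  have hl : (1 + 1 / (n : ℝ) - 1) ≠ 0 := by
    have h : (0 : ℝ) < 1 / n := by positivity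
    have e : (1 + 1 / (n : ℝ) - 1) = 1 / n := by ring
    rw [e]; exact h.ne'
  induction K with
  | zero => simp
  | succ K ih =>
    have ih' := ih (by omega)
    have e : ((((1 + 1 / (n : ℝ)) ^ (K + 1) - 1) / (1 + 1 / (n : ℝ) - 1) - ((K + 1 : ℕ) : ℝ)) /
        (1 + 1 / (n : ℝ) - 1)) =
        ((((1 + 1 / (n : ℝ)) ^ K - 1) / (1 + 1 / (n : ℝ) - 1) - K) / (1 + 1 / (n : ℝ) - 1)) +
        ((1 + 1 / (n : ℝ)) ^ K - 1) * n := by
      rw [pow_succ]
      push_cast
      field_simp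
      ring
    rw [e]
    have h1 := pow_lam_le hn K
    have h2 : (K : ℝ) / n ≤ 1 / 2 := by
      rw [div_le_div_iff₀ hn' (by norm_num)]
      have : (2 * (K : ℝ) + 2) ≤ n + 1 := by exact_mod_cast hK
      linarith
    have h3 := exp_conv (by positivity : (0 : ℝ) ≤ (K : ℝ) / n) h2
    have h4 : ((1 + 1 / (n : ℝ)) ^ K - 1) * n ≤ 1.2976 * (K / n) * n :=
      mul_le_mul_of_nonneg_right (by linarith) hn'.le
    have h5 : 1.2976 * ((K : ℝ) / n) * n = 1.2976 * K := by field_simp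
    rw [h5] at h4
    push_cast
    nlinarith

theorem large {n : ℕ} (h80 : 80 ≤ n) :
    ∃ r, Closed n ((15 * (n : ℝ) - 6) / 4) (1 - 1 / ((15 * (n : ℝ) - 6) / 4)) r := by
  set Q : ℝ := (15 * (n : ℝ) - 6) / 4 with hQdef
  have hn' : (80 : ℝ) ≤ n := by exact_mod_cast h80
  have hQ0 : 0 < Q := by rw [hQdef]; linarith
  set x : ℝ := 1 / Q with hx
  have hQx : Q * x = 1 := by rw [hx]; field_simp
  have hx0 : 0 < x := by positivity
  obtain ⟨m, K, hmK, hm2, hK2⟩ : ∃ m K : ℕ, m + K = n ∧ 2 * m ≤ n ∧ 2 * K ≤ n + 1 :=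
    ⟨n / 2, n - n / 2, by omega, by omega, by omega⟩
  have hmR : (m : ℝ) ≤ n / 2 := by
    have : (2 * (m : ℝ)) ≤ n := by exact_mod_cast hm2
    linarith
  have hKR : (K : ℝ) ≤ (n + 1) / 2 := by
    have : (2 * (K : ℝ)) ≤ n + 1 := by exact_mod_cast hK2
    linarith
  have hmKR : (m : ℝ) + K = n := by exact_mod_cast hmK
  have hm1 : 1 ≤ m := by omega
  have hK1 : (1 : ℝ) ≤ K := by
    have : 1 ≤ K := by omega
    exact_mod_cast this
  -- `n x`
  have hnx1 : 3.73125 * ((n : ℝ) * x) ≤ 1 := by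
    rw [← hQx]
    have : 3.73125 * (n : ℝ) ≤ Q := by rw [hQdef]; linarith
    calc 3.73125 * ((n : ℝ) * x) = 3.73125 * (n : ℝ) * x := by ring
      _ ≤ Q * x := mul_le_mul_of_nonneg_right this hx0.le
  have hnx2 : 1 ≤ 3.75 * ((n : ℝ) * x) := by
    rw [← hQx]
    have : Q ≤ 3.75 * (n : ℝ) := by rw [hQdef]; linarith
    calc Q * x ≤ 3.75 * (n : ℝ) * x := mul_le_mul_of_nonneg_right this hx0.le
      _ = _ := by ring
  have hx1 : x ≤ 1 := by
    have : 1 * x ≤ n * x := mul_le_mul_of_nonneg_right (by linarith) hx0.le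
    linarith
  set E : ℝ := 1 - x with hE
  have hE0 : 0 < E := by
    have : 80 * x ≤ n * x := mul_le_mul_of_nonneg_right hn' hx0.le
    rw [hE]; linarith
  set lam : ℝ := 1 + 1 / n with hlam
  have hl : lam - 1 = 1 / n := by rw [hlam]; ring
  have hlam1 : 1 < lam := by
    have : (0 : ℝ) < 1 / n := by positivity
    linarith
  have hlamn : lam ^ n ≤ 2.71829 := by
    have h1 := pow_lam_le (by omega : 0 < n) n
    have e : (n : ℝ) / n = 1 := div_self (by linarith)
    rw [e] at h1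
    exact h1.trans (Real.exp_one_lt_d9.le.trans (by norm_num))
  -- powers of `E`
  have hEm : 1 - m * x ≤ E ^ m := by
    have := one_add_mul_le_pow (a := -x) (by linarith) m
    have e : (1 : ℝ) + m * -x = 1 - m * x := by ring
    have e2 : (1 : ℝ) + -x = E := by rw [hE]; ring
    rwa [e, e2] at this
  have hEm1 : E ^ m ≤ 1 := pow_le_one₀ hE0.le (by linarith)
  have hEmlow : 0.865 ≤ E ^ m := by
    have : (m : ℝ) * x ≤ n / 2 * x := mul_le_mul_of_nonneg_right hmR hx0.le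
    linarith
  have hEm0 : 0 < E ^ m := by linarith
  have hEn1 : E ^ n ≤ 1 := pow_le_one₀ hE0.le (by linarith)
  have hEK : E ^ n = E ^ m * E ^ K := by rw [← pow_add, hmK]
  -- `Z`
  set Z : ℝ := ((lam ^ K - 1) / (lam - 1) - K) / (lam - 1) with hZ
  have hZle : Z ≤ 1.2976 * (K * (K - 1) / 2) := zbound (by omega) hK2
  set a : ℝ := E ^ m * x with ha
  have ha0 : 0 < a := by positivity
  set eta : ℝ := m - (1 - E ^ m) * Q + K * (1 - E ^ m) + a * Z with heta
  set D : ℝ := Q * E ^ (m + K) - eta with hD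
  -- lower bound of `D`
  have hDlow : 2.71829 * (n : ℝ) ≤ D := by
    have h1 : D = Q - n + E ^ m * (K - Q * (1 - E ^ K) - x * Z) := by
      rw [hD, heta, ha, hmK, hEK, ← hmKR]
      ring
    have h2 := bonf x hx1 K
    rw [← hE] at h2
    have h3 : (K : ℝ) * (K - 1) / 2 * x - K * (K - 1) * (K - 2) / 6 * x ^ 2 ≤
        K - Q * (1 - E ^ K) := by
      have h4 := mul_le_mul_of_nonneg_left h2 hQ0.le
      have e : Q * (1 - K * x + K * (K - 1) / 2 * x ^ 2 - K * (K - 1) * (K - 2) / 6 * x ^ 3) =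
          Q - K * (Q * x) + K * (K - 1) / 2 * x * (Q * x) -
          K * (K - 1) * (K - 2) / 6 * x ^ 2 * (Q * x) := by ring
      rw [e, hQx, mul_one, mul_one] at h4
      linarith
    have h5 : (K : ℝ) * (K - 1) * (K - 2) ≤ K ^ 3 := by
      have h50 : 0 ≤ (K : ℝ) * (3 * K - 2) := mul_nonneg (by linarith) (by linarith)
      have e : (K : ℝ) * (K - 1) * (K - 2) = K ^ 3 - K * (3 * K - 2) := by ring
      rw [e]; linarith
    have hKK : 0 ≤ (K : ℝ) * (K - 1) := mul_nonneg (by linarith) (by linarith)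
    -- the bracket
    have h6 : -(0.2976 * (x * (K * (K - 1) / 2)) + K ^ 3 / 6 * x ^ 2) ≤
        K - Q * (1 - E ^ K) - x * Z := by
      have h7 : x * Z ≤ x * (1.2976 * (K * (K - 1) / 2)) :=
        mul_le_mul_of_nonneg_left hZle hx0.le
      have h8 : (K : ℝ) * (K - 1) * (K - 2) / 6 * x ^ 2 ≤ K ^ 3 / 6 * x ^ 2 :=
        mul_le_mul_of_nonneg_right (by linarith) (by positivity)
      linarith
    have h9 : 0 ≤ 0.2976 * (x * ((K : ℝ) * (K - 1) / 2)) + (K : ℝ) ^ 3 / 6 * x ^ 2 := by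
      positivity
    have h10 : -(0.2976 * (x * ((K : ℝ) * (K - 1) / 2)) + K ^ 3 / 6 * x ^ 2) ≤
        E ^ m * (K - Q * (1 - E ^ K) - x * Z) := by
      have h61 := mul_le_mul_of_nonneg_left h6 hEm0.le
      have h62 := mul_le_mul_of_nonneg_right hEm1 h9
      linarith
    -- sizes
    have h11 : (K : ℝ) * (K - 1) ≤ (n + 1) * (n - 1) / 4 := by
      have h63 : (K : ℝ) * (K - 1) ≤ (n + 1) / 2 * ((n + 1) / 2 - 1) :=
        mul_le_mul hKR (by linarith) (by linarith) (by linarith)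
      have e : ((n : ℝ) + 1) / 2 * ((n + 1) / 2 - 1) = (n + 1) * (n - 1) / 4 := by ring
      rwa [e] at h63
    have h12 : x * ((K : ℝ) * (K - 1) / 2) ≤ 0.0336 * n := by
      have h13 : x * ((K : ℝ) * (K - 1) / 2) ≤ x * ((n + 1) * (n - 1) / 8) :=
        mul_le_mul_of_nonneg_left (by linarith) hx0.le
      have h14 : x * (((n : ℝ) + 1) * (n - 1) / 8) ≤ n * x * n / 8 := by
        have e : (n : ℝ) * x * n / 8 = x * ((n + 1) * (n - 1) / 8) + x / 8 := by ring
        rw [e]; linarith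
      have h15 : (n : ℝ) * x * n / 8 ≤ 0.0336 * n := by
        have h151 : (n : ℝ) * x * n ≤ 0.2682 * n :=
          mul_le_mul_of_nonneg_right (by linarith) (by linarith)
        linarith
      linarith
    have h16 : (K : ℝ) ^ 3 / 6 * x ^ 2 ≤ 0.00156 * n := by
      have hK80 : (K : ℝ) ≤ 0.50625 * n := by linarith
      have h17 : (K : ℝ) * x ≤ 0.13578 := by
        have h171 : (K : ℝ) * x ≤ 0.50625 * n * x := mul_le_mul_of_nonneg_right hK80 hx0.le
        linarith
      have h18 : ((K : ℝ) * x) ^ 2 ≤ 0.13578 ^ 2 :=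
        pow_le_pow_left₀ (by positivity) h17 2
      have e : (K : ℝ) ^ 3 / 6 * x ^ 2 = K * (K * x) ^ 2 / 6 := by ring
      rw [e]
      have h19 : (K : ℝ) * (K * x) ^ 2 ≤ (0.50625 * n) * 0.13578 ^ 2 :=
        mul_le_mul hK80 h18 (by positivity) (by linarith)
      norm_num at h19 ⊢
      linarith
    rw [h1]
    have hQn : Q = 3.75 * n - 1.5 := by rw [hQdef]; ring
    linarith
  -- upper bound of `eta`
  have hQE : Q * E ^ n ≤ 2.8841 * n - 1.5 := by
    have h1 := bonf_up x hx0.le hx1 n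
    rw [← hE] at h1
    have h2 := mul_le_mul_of_nonneg_left h1 hQ0.le
    have e : Q * (1 - n * x + n * (n - 1) / 2 * x ^ 2) =
        Q - n * (Q * x) + n * (n - 1) / 2 * x * (Q * x) := by ring
    rw [e, hQx] at h2
    have h3 : (n : ℝ) * (n - 1) / 2 * x * 1 ≤ 0.1341 * n := by
      have h4 : (n : ℝ) * x ≤ 0.2682 := by linarith
      have h5 : (n : ℝ) * x * (n - 1) ≤ 0.2682 * (n - 1) :=
        mul_le_mul_of_nonneg_right h4 (by linarith)
      have e2 : (n : ℝ) * (n - 1) / 2 * x * 1 = n * x * (n - 1) / 2 := by ring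
      rw [e2]
      linarith
    have hQn : Q = 3.75 * n - 1.5 := by rw [hQdef]; ring
    rw [mul_one] at h2
    linarith
  have hetaD : eta = Q * E ^ n - D := by rw [hD, hmK]; ring
  have heta1 : eta ≤ 0.16581 * n := by rw [hetaD]; linarith
  have hlamK : lam ^ K ≤ lam ^ n := pow_le_pow_right₀ hlam1.le (by omega)
  have hlamn1 : lam ^ (m + K - 1) ≤ lam ^ n := pow_le_pow_right₀ hlam1.le (by omega)
  refine ⟨two x E lam a m, ?_⟩
  have key := twoPiece (Q := Q) (x := x) (E := E) (lam := lam) (a := a) (eta := eta) (D := D)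
    (m := m) (K := K) hm1 hQx hx0 rfl hE0 hlam1 heta hD ?_ ?_ le_rfl ?_ ?_
  · rw [hmK] at key
    exact key
  · rw [hmK, hl, div_mul_eq_mul_div, one_mul, le_div_iff₀ (by linarith)]
    have : lam ^ n * n ≤ 2.71829 * n := mul_le_mul_of_nonneg_right hlamn (by linarith)
    linarith
  · rw [hl, div_mul_eq_mul_div, one_mul, div_le_iff₀ (by linarith), ha]
    have h1 : x * eta ≤ 0.0445 := by
      have : x * eta ≤ x * (0.16581 * n) := mul_le_mul_of_nonneg_left heta1 hx0.le
      linarith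
    have h2 : E ^ m * x * eta ≤ E ^ m * 0.0445 := by
      rw [mul_assoc]; exact mul_le_mul_of_nonneg_left h1 hEm0.le
    have h3 : 1 - E ^ m ≤ n / 2 * x := by
      have : (m : ℝ) * x ≤ n / 2 * x := mul_le_mul_of_nonneg_right hmR hx0.le
      linarith
    have h4 : E ^ m * x * n = E ^ m * (n * x) := by ring
    rw [h4]
    have h5 := mul_le_mul_of_nonneg_right hEmlow (by linarith : 0 ≤ (n : ℝ) * x - 0.0445)
    linarith
  · rw [hl, ha]
    have h1 : (lam ^ (m + K - 1) - 1) / (1 / (n : ℝ)) ≤ 1.71829 * n := by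
      have e : (lam ^ (m + K - 1) - 1) / (1 / (n : ℝ)) = (lam ^ (m + K - 1) - 1) * n := by
        field_simp
      rw [e]
      exact mul_le_mul_of_nonneg_right (by linarith) (by linarith)
    have h2 : E ^ m * x * ((lam ^ (m + K - 1) - 1) / (1 / (n : ℝ))) ≤
        E ^ m * x * (1.71829 * n) := mul_le_mul_of_nonneg_left h1 (by positivity)
    have h3 : 2.55248 * (n : ℝ) ≤ D - eta := by linarith
    have h4 : E ^ m ≤ E ^ (m - 1) := pow_le_pow_of_le_one hE0.le (by linarith) (by omega)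
    have h5 : E ^ m * x * (2.55248 * n) ≤ E ^ (m - 1) * x * (D - eta) := by
      refine mul_le_mul (mul_le_mul_of_nonneg_right h4 hx0.le) h3 (by positivity) (by positivity)
    have h6 : 1 - E ^ m ≤ n / 2 * x := by
      have : (m : ℝ) * x ≤ n / 2 * x := mul_le_mul_of_nonneg_right hmR hx0.le
      linarith
    have h7 : 0 < x * n := by positivity
    have h8 := mul_le_mul_of_nonneg_right hEmlow h7.le
    linarith
  · rw [hl, ha]
    have h1 : (lam ^ K - 1) / (1 / (n : ℝ)) ≤ 1.71829 * n := by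
      have e : (lam ^ K - 1) / (1 / (n : ℝ)) = (lam ^ K - 1) * n := by field_simp
      rw [e]
      exact mul_le_mul_of_nonneg_right (by linarith) (by linarith)
    have h2 : E ^ m * x * ((lam ^ K - 1) / (1 / (n : ℝ))) ≤ 1 * x * (1.71829 * n) := by
      refine mul_le_mul (mul_le_mul_of_nonneg_right hEm1 hx0.le) h1 ?_ (by positivity)
      have : 1 ≤ lam ^ K := one_le_pow₀ hlam1.le
      exact div_nonneg (by linarith) (by positivity)
    have h3 : (1 : ℝ) * x * (1.71829 * n) ≤ 1 := by linarith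
    rw [hmK]
    linarith

theorem exists_closed {n : ℕ} (h1 : 1 ≤ n) :
    ∃ r, Closed n ((15 * (n : ℝ) - 6) / 4) (1 - 1 / ((15 * (n : ℝ) - 6) / 4)) r := by
  rcases Nat.lt_or_ge n 80 with h | h
  · exact small h1 h
  · exact large h

end Pool.Agent.Lib.MP_d38209_co
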