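import Pool.Agent.Lib.MP_d38209_co.Induct

/-! MP_d38209_co (helper9): sequences of radii; reduction to one real certificate for each `n`. -/

namespace Pool.Agent.Lib.MP_d38209_co

open Finset

/-- The three closure conditions. -/
def Closed (n : ℕ) (Q E : ℝ) (r : ℕ → ℝ) : Prop :=
  (∀ j, E ^ j / Q ≤ r j) ∧
  (∀ d ≤ n + 1, 0 < Q * E ^ d - psum (psum r) d) ∧
  (∀ j, ∀ d ≤ n, psum r (j + d) + E ^ j / Q * psum (psum r) d ≤
    r j * (Q * E ^ d - psum (psum r) d))

theorem psum_nonneg {r : ℕ → ℝ} (hr : ∀ j, 0 ≤ r j) (j : ℕ) : 0 ≤ psum r j :=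
  Finset.sum_nonneg fun i _ => hr i

theorem psum_mono {r : ℕ → ℝ} (hr : ∀ j, 0 ≤ r j) {a b : ℕ} (h : a ≤ b) :
    psum r a ≤ psum r b := by
  induction b, h using Nat.le_induction with
  | base => exact le_rfl
  | succ k _ ih => rw [psum_succ]; linarith [hr k]

/-- scaling -/
theorem psum_scale {r0 r : ℕ → ℝ} {s : ℝ} (hs : 1 ≤ s) (hr : ∀ j, 0 ≤ r0 j)
    (h : ∀ j, r j ≤ s ^ j * r0 j) (j : ℕ) : psum r j ≤ s ^ j * psum r0 j := by
  induction j with
  | zero => simp [psum_zero]
  | succ j ih =>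
    rw [psum_succ, psum_succ, pow_succ]
    have h1 : 0 ≤ psum r0 j := psum_nonneg hr j
    have h2 : 0 < s ^ j := by positivity
    have h3 := h j
    have h4 : s ^ j * psum r0 j ≤ s ^ j * s * psum r0 j := by
      have : s ^ j * 1 ≤ s ^ j * s := mul_le_mul_of_nonneg_left hs h2.le
      rw [mul_one] at this
      exact mul_le_mul_of_nonneg_right this h1
    have h5 : s ^ j * r0 j ≤ s ^ j * s * r0 j := by
      have : s ^ j * 1 ≤ s ^ j * s := mul_le_mul_of_nonneg_left hs h2.le
      rw [mul_one] at this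
      exact mul_le_mul_of_nonneg_right this (hr j)
    rw [mul_add]
    linarith

/-- A certificate for `(Q₀, E₀)` gives one for all larger values. -/
theorem lift {Q0 E0 Q E : ℝ} {n : ℕ} {r0 : ℕ → ℝ} (hQ0 : 0 < Q0) (hE0 : 0 < E0)
    (h : Closed n Q0 E0 r0) (hQ : Q0 ≤ Q) (hE : E0 ≤ E) : ∃ r, Closed n Q E r := by
  obtain ⟨h1, h2, h3⟩ := h
  have hr0 : ∀ j, 0 ≤ r0 j := fun j => le_trans (by positivity) (h1 j)
  set s : ℝ := E / E0 with hs
  have hs1 : 1 ≤ s := by rw [hs, le_div_iff₀ hE0]; linarith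
  have hsE : s * E0 = E := by rw [hs]; field_simp
  have hEj : ∀ j, E ^ j = s ^ j * E0 ^ j := fun j => by rw [← mul_pow, hsE]
  have hQpos : 0 < Q := hQ0.trans_le hQ
  have p1 : ∀ j, psum (fun j => s ^ j * r0 j) j ≤ s ^ j * psum r0 j :=
    psum_scale hs1 hr0 fun j => le_rfl
  have p2 : ∀ j, psum (psum (fun j => s ^ j * r0 j)) j ≤ s ^ j * psum (psum r0) j :=
    psum_scale hs1 (psum_nonneg hr0) p1
  have hden : ∀ d, s ^ d * (Q0 * E0 ^ d - psum (psum r0) d) ≤
      Q * E ^ d - psum (psum (fun j => s ^ j * r0 j)) d := by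
    intro d
    have h4 := p2 d
    have h5 : Q0 * E ^ d ≤ Q * E ^ d :=
      mul_le_mul_of_nonneg_right hQ (pow_nonneg (hE0.le.trans hE) d)
    have e : s ^ d * (Q0 * E0 ^ d - psum (psum r0) d) =
        Q0 * E ^ d - s ^ d * psum (psum r0) d := by rw [hEj d]; ring
    rw [e]
    linarith
  refine ⟨fun j => s ^ j * r0 j, ?_, ?_, ?_⟩
  · intro j
    have h4 : E ^ j / Q ≤ E ^ j / Q0 :=
      div_le_div_of_nonneg_left (pow_nonneg (hE0.le.trans hE) j) hQ0 hQ
    refine h4.trans ?_
    rw [hEj j, mul_div_assoc]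
    exact mul_le_mul_of_nonneg_left (h1 j) (by positivity)
  · intro d hd
    exact lt_of_lt_of_le (mul_pos (by positivity) (h2 d hd)) (hden d)
  · intro j d hd
    have h4 : E ^ j / Q ≤ s ^ j * (E0 ^ j / Q0) := by
      have h4 : E ^ j / Q ≤ E ^ j / Q0 :=
        div_le_div_of_nonneg_left (pow_nonneg (hE0.le.trans hE) j) hQ0 hQ
      refine h4.trans (le_of_eq ?_)
      rw [hEj j, mul_div_assoc]
    have h5 : E ^ j / Q * psum (psum fun j => s ^ j * r0 j) d ≤
        s ^ j * (E0 ^ j / Q0) * (s ^ d * psum (psum r0) d) := by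
      refine mul_le_mul h4 (p2 d) ?_ (by positivity)
      exact psum_nonneg (psum_nonneg fun j => mul_nonneg (by positivity) (hr0 j)) d
    have h6 := p1 (j + d)
    have h7 := mul_le_mul_of_nonneg_left (h3 j d hd) (by positivity : 0 ≤ s ^ (j + d))
    calc psum (fun j => s ^ j * r0 j) (j + d) + E ^ j / Q * psum (psum fun j => s ^ j * r0 j) d
        ≤ s ^ (j + d) * psum r0 (j + d) + s ^ j * (E0 ^ j / Q0) * (s ^ d * psum (psum r0) d) :=
          add_le_add h6 h5
      _ = s ^ (j + d) * (psum r0 (j + d) + E0 ^ j / Q0 * psum (psum r0) d) := by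
          rw [pow_add]; ring
      _ ≤ s ^ (j + d) * (r0 j * (Q0 * E0 ^ d - psum (psum r0) d)) := h7
      _ = s ^ j * r0 j * (s ^ d * (Q0 * E0 ^ d - psum (psum r0) d)) := by rw [pow_add]; ring
      _ ≤ _ := mul_le_mul_of_nonneg_left (hden d) (mul_nonneg (by positivity) (hr0 j))

/-- the two piece sequence -/
noncomputable def two (x E lam a : ℝ) (m j : ℕ) : ℝ :=
  if j < m then x * E ^ j else a * lam ^ (j - m)

theorem psum_two_le {x E lam a : ℝ} {m : ℕ} (hE : E = 1 - x) {j : ℕ} (h : j ≤ m) :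
    psum (two x E lam a m) j = 1 - E ^ j := by
  induction j with
  | zero => simp [psum_zero]
  | succ j ih =>
    rw [psum_succ, ih (by omega), two, if_pos (by omega), pow_succ]
    rw [hE]; ring

theorem psum_two_add {x E lam a : ℝ} {m : ℕ} (hE : E = 1 - x) (hlam : lam ≠ 1) (k : ℕ) :
    psum (two x E lam a m) (m + k) = 1 - E ^ m + a * ((lam ^ k - 1) / (lam - 1)) := by
  have hl : lam - 1 ≠ 0 := sub_ne_zero.mpr hlam
  induction k with
  | zero => rw [add_zero, psum_two_le hE le_rfl]; simp
  | succ k ih =>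
    rw [← add_assoc, psum_succ, ih, two, if_neg (by omega)]
    have : m + k - m = k := by omega
    rw [this, pow_succ]
    field_simp
    ring

theorem psum_psum_two_le {Q x E lam a : ℝ} {m : ℕ} (hQx : Q * x = 1) (hE : E = 1 - x) {j : ℕ}
    (h : j ≤ m) : psum (psum (two x E lam a m)) j = j - (1 - E ^ j) * Q := by
  induction j with
  | zero => simp [psum_zero]
  | succ j ih =>
    rw [psum_succ, ih (by omega), psum_two_le hE (by omega)]
    push_cast
    have e : E ^ (j + 1) * Q = E ^ j * Q - E ^ j := by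
      rw [pow_succ]
      have : E * Q = Q - 1 := by rw [hE]; linear_combination (-1 : ℝ) * hQx
      linear_combination E ^ j * this
    linear_combination (-1 : ℝ) * e

theorem psum_psum_two_add {Q x E lam a : ℝ} {m : ℕ} (hQx : Q * x = 1) (hE : E = 1 - x)
    (hlam : lam ≠ 1) (k : ℕ) :
    psum (psum (two x E lam a m)) (m + k) = m - (1 - E ^ m) * Q + k * (1 - E ^ m) +
      a * (((lam ^ k - 1) / (lam - 1) - k) / (lam - 1)) := by
  have hl : lam - 1 ≠ 0 := sub_ne_zero.mpr hlam
  induction k with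
  | zero => rw [add_zero, psum_psum_two_le hQx hE le_rfl]; simp
  | succ k ih =>
    rw [← add_assoc, psum_succ, ih, psum_two_add hE hlam]
    push_cast
    rw [pow_succ]
    field_simp
    ring

/-- The certificate. -/
theorem twoPiece {Q x E lam a eta D : ℝ} {m K : ℕ} (hm : 1 ≤ m) (hQx : Q * x = 1) (hx : 0 < x)
    (hE : E = 1 - x) (hE0 : 0 < E) (hlam : 1 < lam)
    (heta : eta = m - (1 - E ^ m) * Q + K * (1 - E ^ m) +
      a * (((lam ^ K - 1) / (lam - 1) - K) / (lam - 1)))
    (hD : D = Q * E ^ (m + K) - eta)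
    (hA : lam ^ (m + K) ≤ (lam - 1) * D)
    (hB : (lam - 1) * (1 - E ^ m + E ^ m * x * eta) ≤ a)
    (hB2 : E ^ m * x ≤ a)
    (hC : 1 - E ^ m + a * ((lam ^ (m + K - 1) - 1) / (lam - 1)) ≤ E ^ (m - 1) * x * (D - eta))
    (hH : 0 < D - E ^ (m + K) - (1 - E ^ m + a * ((lam ^ K - 1) / (lam - 1)))) :
    Closed (m + K) Q E (two x E lam a m) := by
  have hQ : 0 < Q := by
    by_contra h
    push Not at h
    nlinarith
  have hE1 : E < 1 := by linarith
  have hl : 0 < lam - 1 := by linarith
  have hlne : lam ≠ 1 := hlam.ne'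
  have ha : 0 < a := lt_of_lt_of_le (by positivity) hB2
  have hr : ∀ j, 0 ≤ two x E lam a m j := by
    intro j
    unfold two
    split_ifs <;> positivity
  have heta' : psum (psum (two x E lam a m)) (m + K) = eta := by
    rw [psum_psum_two_add hQx hE hlne, heta]
  have heta0 : 0 ≤ eta := by rw [← heta']; exact psum_nonneg (psum_nonneg hr) _
  have hD0 : 0 < D := by
    by_contra h
    push Not at h
    have h1 : 0 < lam ^ (m + K) := by positivity
    nlinarith
  have hxQ : ∀ j, E ^ j / Q = E ^ j * x := fun j => by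
    rw [div_eq_iff hQ.ne', mul_assoc, mul_comm x Q, hQx, mul_one]
  have hEle : ∀ i j : ℕ, i ≤ j → E ^ j ≤ E ^ i := fun i j h =>
    pow_le_pow_of_le_one hE0.le hE1.le h
  have hDd : ∀ d ≤ m + K, D ≤ Q * E ^ d - psum (psum (two x E lam a m)) d := by
    intro d hd
    have h1 := mul_le_mul_of_nonneg_left (hEle d (m + K) hd) hQ.le
    have h2 := psum_mono (psum_nonneg hr) hd
    rw [heta'] at h2
    rw [hD]
    linarith
  -- the main inequality
  have hmain : ∀ j, psum (two x E lam a m) (j + (m + K)) + E ^ j * x * eta ≤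
      two x E lam a m j * D := by
    intro j
    by_cases hj : j < m
    · have e1 : j + (m + K) = m + (j + K) := by omega
      rw [e1, psum_two_add hE hlne, two, if_pos hj]
      have h1 : lam ^ (j + K) ≤ lam ^ (m + K - 1) := pow_le_pow_right₀ hlam.le (by omega)
      have h2 : a * ((lam ^ (j + K) - 1) / (lam - 1)) ≤
          a * ((lam ^ (m + K - 1) - 1) / (lam - 1)) := by
        refine mul_le_mul_of_nonneg_left ?_ ha.le
        exact div_le_div_of_nonneg_right (by linarith) hl.le
      have hDe : 0 ≤ D - eta := by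
        by_contra h
        push Not at h
        have h3 : 0 ≤ (lam ^ (m + K - 1) - 1) / (lam - 1) :=
          div_nonneg (by linarith [one_le_pow₀ (n := m + K - 1) hlam.le]) hl.le
        have h4 : E ^ m ≤ 1 := pow_le_one₀ hE0.le hE1.le
        have h5 : 0 < E ^ (m - 1) * x := by positivity
        have h6 := mul_neg_of_pos_of_neg h5 h
        have h7 : 0 ≤ a * ((lam ^ (m + K - 1) - 1) / (lam - 1)) := mul_nonneg ha.le h3
        linarith
      have h3 : E ^ (m - 1) * x * (D - eta) ≤ E ^ j * x * (D - eta) := by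
        refine mul_le_mul_of_nonneg_right ?_ hDe
        exact mul_le_mul_of_nonneg_right (hEle j (m - 1) (by omega)) hx.le
      have e2 : E ^ j * x * (D - eta) = x * E ^ j * D - E ^ j * x * eta := by ring
      linarith
    · push Not at hj
      obtain ⟨i, rfl⟩ := Nat.exists_eq_add_of_le hj
      have e1 : m + i + (m + K) = m + (i + (m + K)) := by omega
      have e2 : m + i - m = i := by omega
      rw [e1, psum_two_add hE hlne, two, if_neg (by omega), e2]
      have h1 := mul_le_mul_of_nonneg_left hA (by positivity : 0 ≤ a * lam ^ i)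
      have h2 : E ^ (m + i) * x * eta ≤ E ^ m * x * eta := by
        refine mul_le_mul_of_nonneg_right ?_ heta0
        exact mul_le_mul_of_nonneg_right (hEle m (m + i) (by omega)) hx.le
      have h3 := mul_le_mul_of_nonneg_left h2 hl.le
      have h4 : (lam - 1) * (1 - E ^ m + a * ((lam ^ (i + (m + K)) - 1) / (lam - 1)) +
          E ^ (m + i) * x * eta) ≤ (lam - 1) * (a * lam ^ i * D) := by
        have e3 : (lam - 1) * (1 - E ^ m + a * ((lam ^ (i + (m + K)) - 1) / (lam - 1)) +
            E ^ (m + i) * x * eta) = (lam - 1) * (1 - E ^ m) +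
            a * (lam ^ i * lam ^ (m + K) - 1) + (lam - 1) * (E ^ (m + i) * x * eta) := by
          rw [pow_add lam i]
          field_simp
        rw [e3]
        nlinarith
      exact le_of_mul_le_mul_left h4 hl
  refine ⟨?_, ?_, ?_⟩
  · intro j
    rw [hxQ j, two]
    split_ifs with hj
    · rw [mul_comm]
    · push Not at hj
      have h1 : E ^ j * x ≤ E ^ m * x := mul_le_mul_of_nonneg_right (hEle m j hj) hx.le
      have h2 : 1 ≤ lam ^ (j - m) := one_le_pow₀ hlam.le
      nlinarith
  · intro d hd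
    rcases Nat.lt_or_ge d (m + K + 1) with h | h
    · exact hD0.trans_le (hDd d (by omega))
    · have e : d = (m + K) + 1 := by omega
      subst e
      rw [psum_succ, heta', psum_two_add hE hlne, pow_succ]
      have e3 : Q * (E ^ (m + K) * E) = Q * E ^ (m + K) - E ^ (m + K) := by
        have : Q * E = Q - 1 := by rw [hE]; linear_combination (-1 : ℝ) * hQx
        linear_combination E ^ (m + K) * this
      rw [e3]
      rw [hD] at hH
      linarith
  · intro j d hd
    have h1 := hmain j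
    have h2 : psum (two x E lam a m) (j + d) ≤ psum (two x E lam a m) (j + (m + K)) :=
      psum_mono hr (by omega)
    have h3 : E ^ j * x * psum (psum (two x E lam a m)) d ≤ E ^ j * x * eta := by
      refine mul_le_mul_of_nonneg_left ?_ (by positivity)
      rw [← heta']
      exact psum_mono (psum_nonneg hr) hd
    have h4 := mul_le_mul_of_nonneg_left (hDd d hd) (hr j)
    rw [hxQ j]
    linarith

end Pool.Agent.Lib.MP_d38209_co
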