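import Pool.Agent.Lib.MP_d38209_co.Real

/-! MP_d38209_co (helper9): the certificates for `n < 80`. -/

namespace Pool.Agent.Lib.MP_d38209_co

/-- `eta` of a certificate -/
def cEta (m K : ℕ) (Q lam a : ℚ) : ℚ :=
  m - (1 - (1 - 1 / Q) ^ m) * Q + K * (1 - (1 - 1 / Q) ^ m) +
    a * (((lam ^ K - 1) / (lam - 1) - K) / (lam - 1))

/-- `D` of a certificate -/
def cD (m K : ℕ) (Q lam a : ℚ) : ℚ := Q * (1 - 1 / Q) ^ (m + K) - cEta m K Q lam a

/-- The conditions. -/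
def Cert (m K : ℕ) (Q lam a : ℚ) : Prop :=
  1 ≤ m ∧ 1 < Q ∧ 1 < lam ∧
  lam ^ (m + K) ≤ (lam - 1) * cD m K Q lam a ∧
  (lam - 1) * (1 - (1 - 1 / Q) ^ m + (1 - 1 / Q) ^ m * (1 / Q) * cEta m K Q lam a) ≤ a ∧
  (1 - 1 / Q) ^ m * (1 / Q) ≤ a ∧
  1 - (1 - 1 / Q) ^ m + a * ((lam ^ (m + K - 1) - 1) / (lam - 1)) ≤
    (1 - 1 / Q) ^ (m - 1) * (1 / Q) * (cD m K Q lam a - cEta m K Q lam a) ∧
  0 < cD m K Q lam a - (1 - 1 / Q) ^ (m + K) -
    (1 - (1 - 1 / Q) ^ m + a * ((lam ^ K - 1) / (lam - 1)))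

instance (m K : ℕ) (Q lam a : ℚ) : Decidable (Cert m K Q lam a) := by
  unfold Cert; infer_instance

theorem closed_of_cert {m K : ℕ} {Q lam a : ℚ} (h : Cert m K Q lam a) :
    ∃ r, Closed (m + K) (Q : ℝ) (1 - 1 / (Q : ℝ)) r := by
  obtain ⟨h1, h2, h3, h4, h5, h6, h7, h8⟩ := h
  have hQ : (1 : ℝ) < (Q : ℝ) := by exact_mod_cast h2
  have hQ0 : (0 : ℝ) < (Q : ℝ) := by linarith
  refine ⟨_, twoPiece (Q := (Q : ℝ)) (x := 1 / (Q : ℝ)) (E := 1 - 1 / (Q : ℝ)) (lam := (lam : ℝ))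
    (a := (a : ℝ)) (eta := ((cEta m K Q lam a : ℚ) : ℝ)) (D := ((cD m K Q lam a : ℚ) : ℝ))
    (m := m) (K := K) h1 (by field_simp) (by positivity) rfl ?_ (by exact_mod_cast h3)
    ?_ ?_ ?_ ?_ ?_ ?_ ?_⟩
  · rw [sub_pos, div_lt_one hQ0]; exact hQ
  · unfold cEta; push_cast; ring
  · unfold cD; push_cast; ring
  · exact_mod_cast h4
  · exact_mod_cast h5
  · exact_mod_cast h6
  · exact_mod_cast h7
  · exact_mod_cast h8

theorem cert_all : ∀ n < 80, 4 ≤ n →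
    Cert (n / 2) (n - n / 2) ((15 * n - 6) / 4) (n / (n - 1)) (27 / (100 * n)) := by
  decide +kernel

theorem cert1 : Cert 1 0 (9 / 4) 5 (16 / 9) := by decide +kernel
theorem cert2 : Cert 1 1 6 2 (19 / 100) := by decide +kernel
theorem cert3 : Cert 2 1 (39 / 4) (3 / 2) (11 / 100) := by decide +kernel

theorem small {n : ℕ} (h1 : 1 ≤ n) (h80 : n < 80) :
    ∃ r, Closed n ((15 * (n : ℝ) - 6) / 4) (1 - 1 / ((15 * (n : ℝ) - 6) / 4)) r := by
  rcases Nat.lt_or_ge n 4 with h | h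
  · interval_cases n
    · have := closed_of_cert cert1
      norm_num at this ⊢
      exact this
    · have := closed_of_cert cert2
      norm_num at this ⊢
      exact this
    · have := closed_of_cert cert3
      norm_num at this ⊢
      exact this
  · have := closed_of_cert (cert_all n h80 h)
    have e : n / 2 + (n - n / 2) = n := by omega
    rw [e] at this
    push_cast at this
    exact this

end Pool.Agent.Lib.MP_d38209_co
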